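import Pool.Agent.H77.PUC.StmtsE

/-! # NRM: the norm trick -/

universe u

namespace PUC

open Polynomial Filter Topology

theorem NRM_ultra {K : Type u} [NormedField K] [IsUltrametricDist K] (a b c : K) {η : ℝ}
    (h1 : ‖a - b‖ ≤ η) (h2 : ‖c - b‖ ≤ η) : ‖a - c‖ ≤ η := by
  have e : a - c = (a - b) + (b - c) := by ring
  rw [e]
  refine (IsUltrametricDist.norm_add_le_max _ _).trans (max_le h1 ?_)
  rw [norm_sub_rev]; exact h2

theorem NRM_gact_one {K Ω : Type u} [Field K] [Field Ω] [Algebra K Ω] [Algebra (RatFunc K) Ω]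
    [IsScalarTower K (RatFunc K) Ω] (P : Place K Ω) : P.gact 1 = P := by
  apply Place.ext'
  ext f
  exact Iff.rfl

theorem NRM_gact_mul {K Ω : Type u} [Field K] [Field Ω] [Algebra K Ω] [Algebra (RatFunc K) Ω]
    [IsScalarTower K (RatFunc K) Ω] (P : Place K Ω) (σ τ : Ω ≃ₐ[RatFunc K] Ω) :
    (P.gact σ).gact τ = P.gact (σ * τ) := by
  apply Place.ext'
  ext f
  exact Iff.rfl

/-- products of close factors -/
theorem NRM_prod {K : Type u} [NormedField K] [IsUltrametricDist K] {ι : Type u} (s : Finset ι)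
    (a b : ι → K) {η M : ℝ} (h0 : 0 ≤ η) (hM : η ≤ M) (ha : ∀ i, ‖a i‖ ≤ M) (hb : ∀ i, ‖b i‖ ≤ M)
    (hab : ∀ i, ‖a i - b i‖ ≤ η) :
    ‖∏ i ∈ s, a i - ∏ i ∈ s, b i‖ ≤ η * M ^ (s.card - 1) := by
  classical
  have hM0 : 0 ≤ M := h0.trans hM
  have hpr : ∀ (s : Finset ι), ‖∏ i ∈ s, b i‖ ≤ M ^ s.card := by
    intro s
    rw [norm_prod]
    calc ∏ i ∈ s, ‖b i‖ ≤ ∏ _i ∈ s, M := Finset.prod_le_prod (fun _ _ => norm_nonneg _) fun i _ => hb i
      _ = M ^ s.card := by simp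
  induction s using Finset.induction_on with
  | empty => simpa using h0
  | insert i s hi ih =>
    rw [Finset.prod_insert hi, Finset.prod_insert hi, Finset.card_insert_of_notMem hi]
    have e : a i * ∏ j ∈ s, a j - b i * ∏ j ∈ s, b j =
      a i * (∏ j ∈ s, a j - ∏ j ∈ s, b j) + (a i - b i) * ∏ j ∈ s, b j := by ring
    rw [e]
    refine (IsUltrametricDist.norm_add_le_max _ _).trans (max_le ?_ ?_)
    · rw [norm_mul]
      rcases Nat.eq_zero_or_pos s.card with h | h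
      · rw [Finset.card_eq_zero] at h
        subst h
        simp only [Finset.prod_empty, sub_self, norm_zero, mul_zero]
        positivity
      · calc ‖a i‖ * ‖∏ j ∈ s, a j - ∏ j ∈ s, b j‖ ≤ M * (η * M ^ (s.card - 1)) := by
              gcongr
              exact ha i
          _ = η * M ^ (s.card - 1 + 1) := by ring
          _ = η * M ^ (s.card + 1 - 1) := by
              rw [Nat.sub_add_cancel h, Nat.add_sub_cancel]
    · rw [norm_mul, Nat.add_sub_cancel]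
      gcongr
      · exact hab i
      · exact hpr s

theorem sNrm (hLft : SLft.{u}) (hFin : SFin.{u}) (hPco : SPco.{u}) (hFcs : SFcs.{u})
    (hFcp : SFcp.{u}) (hFcc : SFcc.{u}) (hZpl : SZpl.{u}) : SNrm.{u} := by
  classical
  intro K Ω _ _ _ _ _ _ _ _ _ _ _ p hp hpn G η M hη hηM hGM hG
  obtain ⟨n, T, g, hcov, happ⟩ := hG
  have hM : 0 < M := hη.trans_le hηM
  obtain ⟨F', hF1, hF2, hF3⟩ := hFin K Ω (Finset.univ.biUnion T ∪ Finset.univ.image g)
  have hT : ∀ i, ∀ t ∈ T i, t ∈ F' := fun i t ht => hF3 t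
    (Finset.mem_union_left _ (Finset.mem_biUnion.2 ⟨i, Finset.mem_univ _, ht⟩))
  have hgF : ∀ i, g i ∈ F' := fun i => hF3 _
    (Finset.mem_union_right _ (Finset.mem_image_of_mem _ (Finset.mem_univ _)))
  obtain ⟨lft, hl1, hl2, hl3⟩ := hLft K Ω F'
  -- places that agree on `F'`
  have hagr : ∀ P P' : Place K Ω, Agree (F' : Set Ω) P P' → ‖G P - G P'‖ ≤ η := by
    intro P P' h
    obtain ⟨i, hi⟩ := hcov P (Set.mem_univ _)
    have hi' : P' ∈ Dom K (T i) := by
      intro t ht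
      have h1 := hi t ht
      exact ⟨(h t (hT i t ht)).1 h1.1, by rw [← h.val_eq (hT i t ht)]; exact h1.2⟩
    have h1 := (happ i P (Set.mem_univ _) hi).2
    have h2 := (happ i P' (Set.mem_univ _) hi').2
    rw [← h.val_eq (hgF i)] at h2
    exact NRM_ultra _ _ _ h1 h2
  have : Fintype (F' ≃ₐ[RatFunc K] F') := Fintype.ofFinite _
  set N := Fintype.card (F' ≃ₐ[RatFunc K] F') with hN
  have hNpos : 0 < N := Fintype.card_pos
  -- the norm
  let e : K → Place K Ω → K := fun c P => ∏ γ : F' ≃ₐ[RatFunc K] F', (G (P.gact (lft γ)) - c)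
  have hGc : ∀ (c : K), ‖c‖ ≤ M → ∀ P, ‖G P - c‖ ≤ M := fun c hc P =>
    (by
      rw [sub_eq_add_neg]
      exact (IsUltrametricDist.norm_add_le_max _ _).trans (max_le (hGM P) (by rwa [norm_neg])))
  have heinv : ∀ (c : K), ‖c‖ ≤ M → ∀ (P : Place K Ω) (τ : Ω ≃ₐ[RatFunc K] Ω),
      ‖e c (P.gact τ) - e c P‖ ≤ η * M ^ (N - 1) := by
    intro c hc P τ
    obtain ⟨ee, hee⟩ := hl3 τ
    have h1 : e c P = ∏ γ : F' ≃ₐ[RatFunc K] F', (G (P.gact (lft (ee γ))) - c) :=
      (Equiv.prod_comp ee (fun γ => G (P.gact (lft γ)) - c)).symm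
    rw [h1]
    refine NRM_prod Finset.univ _ _ hη.le hηM (fun i => hGc c hc _) (fun i => hGc c hc _) ?_
    intro γ
    have h2 : G ((P.gact τ).gact (lft γ)) - c - (G (P.gact (lft (ee γ))) - c) =
      G ((P.gact τ).gact (lft γ)) - G (P.gact (lft (ee γ))) := by ring
    rw [h2]
    exact hagr _ _ (hee γ P)
  have hefc : ∀ (c : K), ‖c‖ ≤ M → FCon Set.univ (η * M ^ (N - 1)) (e c) := by
    intro c hc
    refine (hFcp K Ω Set.univ η M hη hηM).1 (F' ≃ₐ[RatFunc K] F')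
      (fun γ P => G (P.gact (lft γ)) - c) (fun γ => ?_) (fun γ P _ => hGc c hc _)
    have h1 := (hFcs K Ω Set.univ η hη.le).2.2.2.2 G (lft γ) (fun P => by simp)
      ⟨n, T, g, hcov, happ⟩
    have h2 := (hFcs K Ω Set.univ η hη.le).2.1 c
    exact ((hFcs K Ω Set.univ η hη.le).1 _ _ h1 h2).2.1
  -- representatives of the orbits
  let st : Setoid (Place K Ω) := {
    r := fun P P' => ∃ σ : Ω ≃ₐ[RatFunc K] Ω, P' = P.gact σ
    iseqv := {
      refl := fun P => ⟨1, (NRM_gact_one P).symm⟩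
      symm := by
        rintro P P' ⟨σ, rfl⟩
        refine ⟨σ⁻¹, ?_⟩
        rw [NRM_gact_mul, mul_inv_cancel, NRM_gact_one]
      trans := by
        rintro P P' P'' ⟨σ, rfl⟩ ⟨τ, rfl⟩
        exact ⟨σ * τ, NRM_gact_mul _ _ _⟩ } }
  let rep : Place K Ω → Place K Ω := fun P => (Quotient.mk st P).out
  have hrep : ∀ P, ∃ σ : Ω ≃ₐ[RatFunc K] Ω, P = (rep P).gact σ := by
    intro P
    have h1 : (Quotient.mk st (rep P)) = Quotient.mk st P := Quotient.out_eq _
    exact Quotient.exact h1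
  have hrepi : ∀ (P : Place K Ω) (σ : Ω ≃ₐ[RatFunc K] Ω), rep (P.gact σ) = rep P := by
    intro P σ
    have h1 : (Quotient.mk st (P.gact σ)) = Quotient.mk st P := by
      apply Quotient.sound
      exact st.symm ⟨σ, rfl⟩
    show (Quotient.mk st (P.gact σ)).out = (Quotient.mk st P).out
    rw [h1]
  have hη1 : 0 < η * M ^ (N - 1) := by positivity
  have hclose : ∀ (c : K), ‖c‖ ≤ M → ∀ P, ‖e c P - e c (rep P)‖ ≤ η * M ^ (N - 1) := by
    intro c hc P
    obtain ⟨σ, hσ⟩ := hrep P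
    conv_lhs => rw [hσ]
    rw [hrepi, show rep (rep P) = rep P from by
      conv_rhs => rw [hσ]
      rw [hrepi]]
    exact heinv c hc _ _
  have hpco : ∀ (c : K), ‖c‖ ≤ M → ∀ P P' : Place K Ω,
      ‖e c P - e c P'‖ ≤ ‖(p : K)‖⁻¹ ^ 3 * (η * M ^ (N - 1)) := by
    intro c hc P P'
    have h1 : FCon Set.univ (η * M ^ (N - 1)) (fun P => e c (rep P)) :=
      (hFcc K Ω _ hη1.le).1 Set.univ (e c) _ (hefc c hc) (fun P _ => hclose c hc P)
    have h2 := hPco K Ω p hp hpn (fun P => e c (rep P)) _ hη1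
      (fun P σ => by
        show e c (rep (P.gact σ)) = e c (rep P)
        rw [hrepi]) h1 P P'
    have hp0 : 0 < ‖(p : K)‖ := by
      rw [norm_pos_iff]
      exact_mod_cast hp.ne_zero
    have h3 : (1:ℝ) ≤ ‖(p : K)‖⁻¹ ^ 3 := one_le_pow₀ (by
      rw [one_le_inv₀ hp0]; exact hpn.le)
    have h4 : η * M ^ (N - 1) ≤ ‖(p : K)‖⁻¹ ^ 3 * (η * M ^ (N - 1)) := by
      nlinarith [hη1]
    have h5 : e c P - e c P' = (e c P - e c (rep P)) + ((e c (rep P) - e c (rep P')) +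
      (e c (rep P') - e c P')) := by ring
    rw [h5]
    refine (IsUltrametricDist.norm_add_le_max _ _).trans (max_le ((hclose c hc P).trans h4) ?_)
    refine (IsUltrametricDist.norm_add_le_max _ _).trans (max_le h2 ?_)
    rw [norm_sub_rev]
    exact (hclose c hc P').trans h4
  -- base point
  obtain ⟨P0, -, -⟩ := (hZpl K Ω).1 0
  let eqv := Fintype.equivFin (F' ≃ₐ[RatFunc K] F')
  refine ⟨N, fun i => G (P0.gact (lft (eqv.symm i))), hNpos, ?_⟩
  intro P
  have h1 := hpco (G P) (hGM P) P P0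
  have h2 : e (G P) P = 0 := by
    refine Finset.prod_eq_zero (Finset.mem_univ 1) ?_
    rw [hl1, NRM_gact_one, sub_self]
  rw [h2, zero_sub, norm_neg] at h1
  by_contra hcon
  push Not at hcon
  have h3 : ∀ γ : F' ≃ₐ[RatFunc K] F', ‖(p : K)‖⁻¹ ^ 3 * η * M ^ (N - 1) <
      ‖G (P0.gact (lft γ)) - G P‖ ^ N := by
    intro γ
    have := hcon (eqv γ)
    rw [Equiv.symm_apply_apply, norm_sub_rev] at this
    exact this
  have h4 : ‖e (G P) P0‖ ^ N = ∏ γ : F' ≃ₐ[RatFunc K] F', ‖G (P0.gact (lft γ)) - G P‖ ^ N := by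
    rw [Finset.prod_pow, ← norm_prod]
  set X := ‖(p : K)‖⁻¹ ^ 3 * η * M ^ (N - 1) with hX
  have hX0 : 0 ≤ X := by positivity
  have h5 : X ^ N < ∏ γ : F' ≃ₐ[RatFunc K] F', ‖G (P0.gact (lft γ)) - G P‖ ^ N := by
    have h6 : X ^ N = ∏ _γ : F' ≃ₐ[RatFunc K] F', X := by
      simp [hN]
    rw [h6]
    rcases hX0.eq_or_lt with h0 | h0
    · rw [← h0]
      rw [Finset.prod_const, Finset.card_univ, zero_pow hNpos.ne']
      exact Finset.prod_pos fun γ _ => by
        have := h3 γ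
        rw [← h0] at this
        exact this
    · exact Finset.prod_lt_prod_of_nonempty (fun _ _ => h0) (fun γ _ => h3 γ) Finset.univ_nonempty
  rw [← h4] at h5
  have h6 : ‖e (G P) P0‖ ≤ X := by rw [hX]; linarith [mul_assoc (‖(p : K)‖⁻¹ ^ 3) η (M ^ (N - 1))]
  exact absurd (pow_le_pow_left₀ (norm_nonneg _) h6 N) (not_le.2 h5)

end PUC
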